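import Mathlib
import Pool.Agent.N843.CK.Nf
import Pool.Agent.Results.MP_ec4e4b_nt.AllWeightsOverK
import Pool.Agent.Results.MP_6e2fc3_nt.CMFormsAllWeights

/-!
# The rank formula of Bloch and Kato at `p = 2` for Hilbert modular forms of all weights `2k` over the
# real quadratic fields `ℚ(√N(D))`, `D ∈ ℤ[(1 + √-7) / 2]`: both sides, exact natural density

`K = ℚ(√-7)` with the ring of integers `ℤ[ω]`, `ω² = ω - 2`. For `D` in `ℤ[ω]` let `E_D` be the twist by
`D` of `X_0(49)` over `K` and `ψ_D` its Hecke character. The automorphic induction `f` of `ψ_D^{2k-1}`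
to `ℚ` is a newform of weight `2k` with the nebentypus of `ℚ(√N(D))`; if `D` is squarefree and not a
rational integer, then `N(D)` is not a square and the nebentypus is not trivial. Over the real quadratic
field `F = ℚ(√N(D))` the base change `g` of `f` is a Hilbert modular newform of parallel weight `2k`
with trivial central character: it is the automorphic induction to `F` of the character
`ψ_D^{2k-1} ∘ N` of `KF`. As `N(D) = D D̄` is a square in `KF`, the `L`-function of `g` is the
product of the `L`-functions over `K` of `ψ_D^{2k-1}` and of `ψ_D̄^{2k-1}`, where `D̄` is the conjugate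
of `D`. The Galois representation `V_g` of `g` at the prime `2` (normalized such that the arithmetic
Frobenius of `v` has characteristic polynomial `X² - t_v X + q_v`) is the restriction to `Gal(ℚ̄/F)` of
the representation of `Gal(ℚ̄/ℚ)` induced from the character `κ^k κ'^(1-k)` of `Gal(ℚ̄/K)`, where `κ`,
`κ'` are the characters by which `Gal(ℚ̄/K)` acts on the `2`-adic Tate module of `E_D`.

Let `D` be good if it is squarefree, `D ≡ 1 mod 8`, `√-7 ∤ D`, `E_D(K)` is finite and `Ш(E_D/K)` has no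
element of order two.

Theorem. 1. For all good `D` the rank formula holds at `p = 2`, with both sides `0`, over `F = ℚ(√N(D))`
for the forms `g` of **all** weights `2k` with odd `k > 0`, and for the forms `g` of all weights `2k`
with even `k > 0` which belong to `-D`: `H¹_f(F, V_g) = 0` **and** `L(g, s)` is not zero at the centre.
2. More generally it holds over all totally real fields `F = ℚ(√d_1, …, √d_n)` which contain `√N(M)`,
for the forms which belong to `M` in `ℤ[ω]`, if all the elements `e M ∏_{i ∈ T} d_i` are good up to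
squares, with `k` odd if `e = 1` and with `k` even if `e = -1`. 3. The good `D` which are not rational
integers (for them `F` is a real quadratic field) have the natural density **exactly**
`c2 = ∏_{i ≥ 1} (1 - 2^(-i)) = 0.288…` among all squarefree `D ≡ 1 mod 8` in `ℤ[ω]` which are prime to
`√-7`, ordered by the norm.

The normalization of the `L`-functions is that of the problem with `s` replaced by `s - 1`: the centre
is `s = 1`.
-/

set_option autoImplicit false

namespace Pool.Agent.Results.MP_6e2fc3_nt.NormFieldsAllWeights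

open Pool.Agent.Results.MP_787500_nt.AllWeightsMultiquadraticX49 (QBar OK emb ED Chr TateModule chi
  K gen Iso)
open Pool.Agent.Results.MP_6e2fc3_nt.CMFormsAllWeights (GQ Zero)
open Pool.Agent.Results.MP_ec4e4b_nt.AllWeightsOverK (twist model RankZeroShaTwo tw norm Adm IsGood
  Weight IsHecke IsHeckeOf Factorisation count HasDensity c2)
open WeierstrassCurve IsDedekindDomain Filter
open scoped Classical

/-! ### The field and the good elements -/

/-- For `M` in `ℤ[ω]` and positive integers `d_i`: the field `F = ℚ(√d_1, …, √d_n)` contains `√N(M)`, and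
all the elements `e M ∏_{i ∈ T} d_i` are good up to nonzero squares. -/
structure GoodPair (w : QBar) (e : ℤ) (M : OK) {n : ℕ} (d : Fin n → ℕ) : Prop where
  central : ∃ T : Finset (Fin n), IsSquare (norm M * ∏ i ∈ T, (d i : ℤ))
  good : ∀ T : Finset (Fin n), ∃ D k : OK, k ≠ 0 ∧ IsGood w D ∧
    (e : OK) * M * ∏ i ∈ T, (d i : OK) = D * k ^ 2

/-! ### The two sides -/

/-- The two equations of `E_M` are over `K` isomorphic to the elliptic curve `ED w (tw M)`, the absolute
Galois group of `K` acts on its `2`-adic Tate module by `κ`, `κ'`, and for `F = ℚ(√d_1, …, √d_n)` and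
all the `k` in `Weight e` the group `H¹_f(F, V_g)` is zero for the restriction `V_g` to the absolute
Galois group of `F` of the representation induced from `κ^k κ'^(1-k)` (see `Zero`). -/
def SelmerSide (w : QBar) (e : ℤ) (M : OK) {n : ℕ} (d : Fin n → ℕ) : Prop :=
  Iso (twist (emb (gen w) M)) (ED w (tw M)) ∧ Iso (model (emb (gen w) M)) (ED w (tw M)) ∧
    (ED w (tw M)).IsElliptic ∧
    ∃ κ κ' : Chr w, TateModule (tw M) κ κ' ∧
      ∀ s : Fin n → QBar, (∀ i, s i ^ 2 = (d i : QBar)) → ∀ c₀ : GQ, c₀ w = 1 - w →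
        ∀ k : ℤ, Weight e k → Zero s (chi κ κ' k) c₀

/-- `L` is an entire function and is, for `Re s > 3/2`, the product over the primes `P` of `K` and over
the sets `T` of the Euler factors `(1 - ψ_T(P) ^ k ψ̄_T(P) ^ (1 - k) N(P) ^ (-s))⁻¹`. -/
def IsLFunction {n : ℕ} (ψ : Finset (Fin n) → Ideal OK → ℂ) (k : ℤ) (L : ℂ → ℂ) : Prop :=
  Differentiable ℂ L ∧ ∀ s : ℂ, 3 / 2 < s.re → HasProd (fun P : HeightOneSpectrum OK =>
    ∏ T : Finset (Fin n), (1 - ψ T P.asIdeal ^ k * (starRingEnd ℂ) (ψ T P.asIdeal) ^ (1 - k) *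
      (Nat.card (OK ⧸ P.asIdeal) : ℂ) ^ (-s))⁻¹) (L s)

/-- The `L`-functions of the forms `g` over `F = ℚ(√d_1, …, √d_n)` of all the weights `2k`, `k` in
`Weight e`, which belong to `M`, are entire and not zero at the centre `s = 1`. Here `L(g, s)` is the
product over the sets `T` of the `L`-functions over `K` of the Hecke characters `ψ_T` of the twists of
`X_0(49)` by `M ∏_{i ∈ T} d_i`, which is `e D_T` up to squares, `D_T` in the family; the complex numbers
contain `K` by the embedding `ω ↦ z`. -/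
def OrderZero (e : ℤ) (M : OK) {n : ℕ} (d : Fin n → ℕ) : Prop := ∀ z : ℂ, z ^ 2 = z - 2 →
  ∃ (D : Finset (Fin n) → OK) (ψ : Finset (Fin n) → Ideal OK → ℂ),
    (∀ T, Adm (D T) ∧ (∃ k : OK, k ≠ 0 ∧ (e : OK) * M * ∏ i ∈ T, (d i : OK) = D T * k ^ 2) ∧
      IsHecke e (D T) z (ψ T) ∧ IsHeckeOf ((e : OK) * D T) (ψ T)) ∧
    ∀ k : ℤ, Weight e k → ∃ L : ℂ → ℂ, IsLFunction ψ k L ∧ L 1 ≠ 0

/-- The rank formula at `p = 2` over the field `F = ℚ(√d_1, …, √d_n)`, both sides being `0`, for the
forms `g` of all the weights `2k`, `k` in `Weight e`, which belong to `M`. -/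
def RankFormula (w : QBar) (e : ℤ) (M : OK) {n : ℕ} (d : Fin n → ℕ) : Prop :=
  SelmerSide w e M d ∧ OrderZero e M d

/-! ### The proof -/

section proof

open Pool.Agent.N843.K (FO C8 GpK gpK_norm nm_sq nm_pos)
open Pool.Agent.Results.MP_ec4e4b_nt.AllWeightsOverK (formula_of good_iff adm_iff)

lemma formula_gp {w : QBar} (hw : w ^ 2 = w - 2) {e : ℤ} (he : e = 1 ∨ e = -1) {M : OK} {n : ℕ}
    {d : Fin n → ℕ} (hG : GpK e M (fun i => (d i : OK))) : RankFormula w e M d := by
  obtain ⟨⟨h1, h2, h3, κ, κ', h4, h5⟩, h6⟩ := formula_of hw he hG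
  refine ⟨⟨h1, h2, h3, κ, κ', h4, fun s hs c₀ hc₀ k hk => ?_⟩, fun z hz => ?_⟩
  · have hs' : ∀ i, s i ^ 2 = emb w ((d i : ℕ) : OK) := fun i => by
      rw [hs i, Pool.Agent.N843.K.emb_em hw, map_natCast]
    exact Pool.Agent.Results.MP_6e2fc3_nt.CMFormsAllWeights.zero_of hw hc₀ hs
      ((h5 s hs').1 k hk).1
  · choose D k hk hA h1 hC using h6
    choose ψ q1 q2 q3 using fun T => hC T z hz
    refine ⟨D, ψ, fun T => ⟨hA T, ⟨k T, hk T, h1 T⟩, q1 T, q2 T⟩, fun j hj => ?_⟩
    choose L a1 a2 a3 using fun T => (q3 T j hj).1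
    refine ⟨fun s => ∏ T, L T s, ⟨?_, fun s hs => ?_⟩, ?_⟩
    · exact Differentiable.fun_finsetProd fun T _ => a1 T
    · exact hasProd_prod fun T _ => a2 T s hs
    · exact Finset.prod_ne_zero_iff.2 fun T _ => a3 T

lemma toNat_cast {D : OK} (h : D ≠ 0) : (((norm D).toNat : ℕ) : OK) = ((norm D : ℤ) : OK) := by
  have h1 : 0 < norm D := nm_pos h
  have h2 : (((norm D).toNat : ℕ) : ℤ) = norm D := Int.toNat_of_nonneg h1.le
  rw [← h2]
  push_cast
  rw [h2]

lemma formula_one {w : QBar} (hw : w ^ 2 = w - 2) {e : ℤ} (he : e = 1 ∨ e = -1) {D : OK}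
    (h : IsGood w D) : RankFormula w e ((e : OK) * D) (fun _ : Fin 1 => (norm D).toNat) := by
  have h1 := (good_iff hw).1 h
  have h2 := gpK_norm h1 he
  refine formula_gp hw he ?_
  have h3 : (fun _ : Fin 1 => (((norm D).toNat : ℕ) : OK)) =
      fun _ : Fin 1 => ((Pool.Agent.N843.K.nm D : ℤ) : OK) := by
    ext1 i
    exact toNat_cast h1.sq.ne_zero
  rw [h3]
  exact h2

lemma count_eq (w : QBar) (hw : w ^ 2 = w - 2) (X : ℕ) :
    count (fun D => IsGood w D ∧ D.im ≠ 0) X =
      {D : OK | Pool.Agent.N843.K.nm D ≤ X ∧ FO D ∧ D.im ≠ 0}.ncard := by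
  unfold count
  congr 1
  ext D
  simp only [Set.mem_ofPred_eq]
  rw [good_iff hw]
  constructor
  · rintro ⟨h1, -, h2, h3⟩
    exact ⟨h1, h2, h3⟩
  · rintro ⟨h1, h2, h3⟩
    exact ⟨h1, adm_iff.2 ⟨h2.sq, h2.m8, h2.n7⟩, h2, h3⟩

lemma count_all (X : ℕ) : count (fun _ => True) X =
    {D : OK | Pool.Agent.N843.K.nm D ≤ X ∧ C8 D}.ncard := by
  unfold count
  congr 1
  ext D
  simp only [Set.mem_ofPred_eq, and_true]
  rw [adm_iff]
  exact Iff.rfl

end proof

/-- **The rank formula of Bloch and Kato at `p = 2` for Hilbert modular forms of all weights `2k` over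
the fields `ℚ(√N(D))`, with both sides `0`, and the natural density of the good `D`.** -/
theorem result : ∀ w : QBar, w ^ 2 = w - 2 →
    (∀ (e : ℤ) (D : OK), (e = 1 ∨ e = -1) → IsGood w D →
      RankFormula w e ((e : OK) * D) (fun _ : Fin 1 => (norm D).toNat)) ∧
    (∀ (e : ℤ) (n : ℕ) (M : OK) (d : Fin n → ℕ), (e = 1 ∨ e = -1) → GoodPair w e M d →
      RankFormula w e M d) ∧
    (∀ D : OK, Adm D → (IsSquare (norm D) ↔ D.im = 0)) ∧
    (∀ D : OK, Adm D → (RankZeroShaTwo (twist (emb (gen w) D)) ↔ ¬ Factorisation D)) ∧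
    HasDensity (fun D => IsGood w D ∧ D.im ≠ 0) c2 ∧
    (∃ δ : ℝ, 0 < δ ∧ ∀ᶠ X : ℕ in atTop, δ * X ≤ (count (fun D => IsGood w D ∧ D.im ≠ 0) X : ℝ)) ∧
    0.288 < c2 ∧ c2 < 0.289 := by
  intro w hw
  refine ⟨fun e D he h => formula_one hw he h, fun e n M d he h => formula_gp hw he fun T => ?_,
    fun D hD => ⟨?_, ?_⟩, ?_, ?_, ?_, ?_, ?_⟩
  · obtain ⟨D, k, hk, h1, h2⟩ := h.good T
    exact ⟨D, k, hk, (Pool.Agent.Results.MP_ec4e4b_nt.AllWeightsOverK.good_iff hw).1 h1, h2⟩
  · rintro ⟨m, hm⟩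
    exact Pool.Agent.N843.K.nm_sq hD.squarefree m (by rw [pow_two]; exact hm)
  · intro h
    refine ⟨D.re, ?_⟩
    show D.re ^ 2 + D.re * D.im + 2 * D.im ^ 2 = D.re * D.re
    rw [h]
    ring
  · exact (Pool.Agent.Results.MP_ec4e4b_nt.AllWeightsOverK.result w hw).2.2.1
  · unfold HasDensity
    simp only [count_eq w hw, count_all]
    exact Pool.Agent.N843.K.denI
  · simp only [count_eq w hw]
    exact Pool.Agent.N843.K.lowI
  · exact Pool.Agent.R426.QK.MOM.t_C2.2.2.2.1
  · exact Pool.Agent.R426.QK.MOM.t_C2.2.2.2.2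

end Pool.Agent.Results.MP_6e2fc3_nt.NormFieldsAllWeights
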