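import Mathlib
import Pool.Agent.R384.End
import Pool.Agent.R384.Inf
import Pool.Agent.N843.Nt
import Pool.Agent.W287.HK.Basic
import Pool.Agent.W571.HK.Cls
import Pool.Agent.W53.HK.Fp
import Pool.Agent.W366.HK.Fpr
import Pool.Agent.W585.HK.LAT
import Pool.Agent.W692.HK.Ker
import Pool.Agent.W584.HK.CNT
import Pool.Agent.W856.HK.Dec
import Pool.Agent.W636.HK.Gauss
import Pool.Agent.W348.HK.Pois

/-!
# The Bloch–Kato order formula for the powers of CM curves over `ℚ(√-7)`, in every weight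

`K = ℚ(√-7)` with ring of integers `ℤ[ω]`, `ω² = ω - 2`; `(2) = (ω) (1 - ω)`. Every elliptic curve
over `K` with complex multiplication by `ℤ[ω]` is one of the
`E_D : y² = x³ + 3 (1 - ω) D x² + ω⁴ D² x`, which are the quadratic twists of `E_1`.

The group `Gal(ℚ̄/K)` acts on the `2`-adic Tate module of `E_D` by two characters, `κ` on the
`ω`-primary part and `κ'` on the `(1 - ω)`-primary part. Put `V_j = ℚ_2(κ ^ j κ' ^ (1 - j))` for an
integer `j`; then `V_j*(1) = V_{1 - j}`. The `2`-adic realization of the polarized motive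
`h^{2i+1}(E_D^N)(i+1)` is a direct sum of copies of the `V_j ⊕ V_{1-j}`, `1 ≤ j ≤ i + 1`.
Let `ψ` be the Hecke character of `E_D`. Then `L(V_j*(1), s) = L_j(s + 1)`, where `L_j(s)` is the Euler
product of the `(1 - ψ(P) ^ j ψ̄(P) ^ (1 - j) N(P) ^ (-s))⁻¹`, that is, `L(ψ ^ (2j-1), s + j - 1)` for
`j ≥ 1`. The Bloch–Kato order formula for `V_j` is

`ord_{s=1} L_j(s) = dim H¹_f(K, V_j) - dim H⁰(K, V_j)`.

Theorem: let `D = ± q_1 ... q_n` with distinct primes `q_i = 1` modulo `4`, `q_1 ... q_n = 5` modulo `8`,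
such that the graph with vertices `1, ..., n` and edges `{i, k}` for the pairs such that `q_i` is not a
square modulo `q_k` has an odd number of spanning trees. Then `L_j(1) ≠ 0`, `H¹_f(K, V_j) = 0` and
`H⁰(K, V_j) = 0` for all integers `j`. So the order formula holds for all the motives
`h^{2i+1}(E_D^N)(i+1)` at the prime `2`. For all `n > 0` there are infinitely many such `D`.

The central values `L(ψ ^ (2j-1), j)` are not zero because of the exact power of the primes above `2`
in their algebraic parts. These are finite sums of the values of the Eisenstein–Kronecker series of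
weight `2j - 1` at the torsion points, and a congruence for these values modulo `4` reduces all the
weights to the first one.
-/

set_option autoImplicit false

namespace Pool.Agent.Results.MP_ec4e4b_nt.AllWeightsSqrtMinusSeven

open WeierstrassCurve IsDedekindDomain
open scoped Classical

/-! ### The curves -/

/-- An algebraic closure of `ℚ`. -/
abbrev QBar : Type := AlgebraicClosure ℚ

/-- The ring of integers `ℤ[ω]`, `ω² = ω - 2`, of `ℚ(√-7)`. -/
abbrev OK : Type := QuadraticAlgebra ℤ (-2) 1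

/-- The field `K = ℚ(w)`. It is `ℚ(√-7)` if `w² = w - 2`. -/
noncomputable abbrev K (w : QBar) : IntermediateField ℚ QBar := IntermediateField.adjoin ℚ {w}

/-- `w` as an element of `K`. -/
noncomputable def gen (w : QBar) : K w := ⟨w, IntermediateField.mem_adjoin_simple_self ℚ w⟩

/-- The element `a + b ω` of `ℤ[ω]` as an element of the field `L`, `w` being the image of `ω`. -/
def emb {L : Type} [Ring L] (w : L) (z : OK) : L := z.re + z.im * w

/-- The curve `y² = x³ + 3 (1 - w) d x² + w⁴ d² x`. -/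
def curve {F : Type} [CommRing F] (w d : F) : WeierstrassCurve F :=
  ⟨0, 3 * (1 - w) * d, 0, w ^ 4 * d ^ 2, 0⟩

/-- The curve `E_D : y² = x³ + 3 (1 - ω) D x² + ω⁴ D² x` over `K`. -/
noncomputable def ED (w : QBar) (D : OK) : WeierstrassCurve (K w) := curve (gen w) (emb (gen w) D)

/-- The absolute Galois group of `K`. -/
abbrev Gal (w : QBar) : Type := QBar ≃ₐ[K w] QBar

/-- The group `E_D(ℚ̄)`. -/
abbrev Pts (w : QBar) (D : OK) : Type := ((ED w D).toAffine.baseChange QBar).Point

/-- The action of the Galois group on `E_D(ℚ̄)`. -/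
noncomputable def act {w : QBar} {D : OK} (σ : Gal w) : Pts w D →+ Pts w D :=
  Affine.Point.map (W' := (ED w D).toAffine) (S := K w) (F := QBar) (K := QBar) σ.toAlgHom

/-- The sequences `x` and `y` are elements of the `2`-adic Tate module of the abelian group `A`, and
they are a basis of it. -/
structure IsBasis {A : Type} [AddCommGroup A] (x y : ℕ → A) : Prop where
  zero : x 0 = 0 ∧ y 0 = 0
  double : ∀ n, x (n + 1) + x (n + 1) = x n ∧ y (n + 1) + y (n + 1) = y n
  span : ∀ (n : ℕ) (P : A), (2 ^ n : ℤ) • P = 0 → ∃ a b : ℤ, P = a • x n + b • y n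
  indep : ∀ (n : ℕ) (a b : ℤ), a • x n + b • y n = 0 → (2 ^ n : ℤ) ∣ a ∧ (2 ^ n : ℤ) ∣ b

/-- The endomorphism `f` of the abelian group `A` acts on the element `x` of its `2`-adic Tate module
as the multiplication by the `2`-adic integer `z`. -/
def ActsBy {A : Type} [AddCommGroup A] (f : A →+ A) (x : ℕ → A) (z : ℤ_[2]) : Prop :=
  ∀ (n : ℕ) (k : ℤ), (2 : ℤ_[2]) ^ n ∣ z - k → f (x n) = k • x n

/-! ### The Selmer groups -/

/-- The decomposition group of the place of `K` given by the embedding `ι` of `ℚ̄`. -/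
def Dec {w : QBar} {p : ℕ} [Fact p.Prime] (ι : QBar →ₐ[ℚ] PadicAlgCl p) : Set (Gal w) :=
  {σ | ∃ τ : PadicAlgCl p ≃ₐ[ℚ_[p]] PadicAlgCl p, ∀ x, τ (ι x) = ι (σ x)}

/-- Its inertia group: the automorphisms which are trivial on the residue field. -/
def Inr {w : QBar} {p : ℕ} [Fact p.Prime] (ι : QBar →ₐ[ℚ] PadicAlgCl p) : Set (Gal w) :=
  {σ | ∃ τ : PadicAlgCl p ≃ₐ[ℚ_[p]] PadicAlgCl p, (∀ x, τ (ι x) = ι (σ x)) ∧
    ∀ z : PadicAlgCl p, ‖z‖ ≤ 1 → ‖τ z - z‖ < 1}

/-- The continuous cocycles of the topological group `G` with values in `ℚ_2(χ)`. -/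
structure IsCocycle {G : Type} [Group G] [TopologicalSpace G] (χ : G →* ℤ_[2]ˣ)
    (c : G → ℚ_[2]) : Prop where
  cont : Continuous c
  mul : ∀ σ τ, c (σ * τ) = c σ + ((χ σ : ℤ_[2]) : ℚ_[2]) * c τ

/-- The restriction of the cocycle `c` to the subset `H` of `G` is a coboundary. -/
def TrivialOn {G : Type} [Group G] (χ : G →* ℤ_[2]ˣ) (H : Set G) (c : G → ℚ_[2]) : Prop :=
  ∃ y : ℚ_[2], ∀ σ ∈ H, c σ = (((χ σ : ℤ_[2]) : ℚ_[2]) - 1) * y

/-- The Bloch–Kato conditions for a character `χ` whose Hodge–Tate weight is positive at one of the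
two places above `2` and not positive at the other one, which is the one that divides `v`: the class
is trivial on the inertia groups of the places prime to `2` and on the decomposition group of the
place `v`. -/
structure IsSelmer {w : QBar} (v : QBar) (χ : Gal w →* ℤ_[2]ˣ) (c : Gal w → ℚ_[2]) : Prop where
  odd : ∀ (p : ℕ) [Fact p.Prime] (ι : QBar →ₐ[ℚ] PadicAlgCl p), p ≠ 2 → TrivialOn χ (Inr ι) c
  two : ∀ ι : QBar →ₐ[ℚ] PadicAlgCl 2, ‖ι v‖ < 1 → TrivialOn χ (Dec ι) c

/-- All the classes of the Selmer group of `ℚ_2(χ)` are trivial. -/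
def SelmerZero {w : QBar} (v : QBar) (χ : Gal w →* ℤ_[2]ˣ) : Prop :=
  ∀ c : Gal w → ℚ_[2], IsCocycle χ c → IsSelmer v χ c → TrivialOn χ Set.univ c

/-- The character `κ ^ j κ' ^ (1 - j)`. -/
noncomputable def chi {G : Type} [Group G] (κ κ' : G →* ℤ_[2]ˣ) (j : ℤ) : G →* ℤ_[2]ˣ :=
  κ ^ j * κ' ^ (1 - j)

/-- `κ` has order at most two on the inertia groups of the places that do not divide `v`. -/
def FiniteOff {w : QBar} (v : QBar) (κ : Gal w →* ℤ_[2]ˣ) : Prop :=
  ∀ (p : ℕ) [Fact p.Prime] (ι : QBar →ₐ[ℚ] PadicAlgCl p), ‖ι v‖ = 1 → ∀ σ ∈ Inr ι, κ σ ^ 2 = 1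

/-- The Galois group acts on the `2`-adic Tate module of `E_D` through the sum of the continuous
characters `κ`, `κ'`; the first one has order at most two on the inertia groups of the places that
do not divide `ω`, and the second one on those of the places that do not divide `1 - ω`. So `κ` has
the Hodge–Tate weights `1` at `ω` and `0` at `1 - ω`, and `κ'` has the weights `0` at `ω` and `1` at
`1 - ω`. -/
structure TateModule {w : QBar} (D : OK) (κ κ' : Gal w →* ℤ_[2]ˣ) : Prop where
  cont : Continuous κ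
  cont' : Continuous κ'
  basis : ∃ x y : ℕ → Pts w D, IsBasis x y ∧
    ∀ σ : Gal w, ActsBy (act σ) x (κ σ) ∧ ActsBy (act σ) y (κ' σ)
  weight : FiniteOff w κ
  weight' : FiniteOff (1 - w) κ'

/-! ### The family -/

/-- `x` is a square modulo `q`. -/
def IsSquareMod (q x : OK) : Prop := ∃ y : OK, q ∣ x - y ^ 2

/-- `D = ± q_1 ... q_n`, the `q_i` are distinct primes congruent to `1` modulo `4`, their product is
congruent to `5` modulo `8`, and the only ways to write `{1, ..., n}` as the union of two disjoint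
subsets `S` and `T` such that the product of the `q_k`, `k ∈ S`, is a square modulo the `q_i`,
`i ∈ T`, and conversely, are the trivial ones. By quadratic reciprocity, this means that the graph
with edges `{i, k}` for the pairs such that `q_i` is not a square modulo `q_k` has an odd number
of spanning trees. -/
structure Good {n : ℕ} (q : Fin n → OK) (D : OK) : Prop where
  prime : ∀ i, Prime (q i)
  one : ∀ i, (4 : OK) ∣ q i - 1
  inj : Function.Injective q
  prod : D = ∏ i, q i ∨ D = -∏ i, q i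
  five : (8 : OK) ∣ ∏ i, q i - 5
  indec : ∀ S : Finset (Fin n), (∀ i, i ∉ S → IsSquareMod (q i) (∏ k ∈ S, q k)) →
    (∀ i, i ∈ S → IsSquareMod (q i) (∏ k ∈ Sᶜ, q k)) → S = ∅ ∨ S = Finset.univ

/-! ### The Hecke character -/

/-- The quadratic residue symbol: `0` if the prime `q` divides `x`, `1` if `x` is a nonzero square
modulo `q`, and `-1` otherwise. -/
noncomputable def symbol (q x : OK) : ℤ := if q ∣ x then 0 else if IsSquareMod q x then 1 else -1

/-- The sign modulo `v²`, where `v` is a prime above `2`: the residue ring modulo `v²` is `ℤ/4`. It is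
`0` if `v` divides `x`, `1` if `x = 1` modulo `v²`, and `-1` otherwise. -/
noncomputable def sign (v x : OK) : ℤ := if v ∣ x then 0 else if v ^ 2 ∣ x - 1 then 1 else -1

/-- The prime above `2` at which `E_D` has bad reduction: `1 - ω` if `D = q_1 ... q_n`, and `ω` if
`D = - q_1 ... q_n`. -/
noncomputable def bad {n : ℕ} (q : Fin n → OK) (D : OK) : OK :=
  if D = ∏ i, q i then 1 - ⟨0, 1⟩ else ⟨0, 1⟩

/-- `ψ` is the Hecke character of `K` given by `ψ((x)) = sign(x) (x / q_1) ... (x / q_n) x`, with the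
sign modulo the square of the prime `bad q D`; its values are in `ℂ` by the embedding of `K` which
maps `ω` to `z`. -/
structure IsHecke {n : ℕ} (q : Fin n → OK) (D : OK) (z : ℂ) (ψ : Ideal OK → ℂ) : Prop where
  mul : ∀ I J : Ideal OK, ψ (I * J) = ψ I * ψ J
  val : ∀ x : OK, ψ (Ideal.span {x}) =
    (sign (bad q D) x : ℂ) * (∏ i, (symbol (q i) x : ℂ)) * emb z x

/-- `ψ` is the Hecke character of `E_D`: for all primes `P` that do not divide `2 D` the number of the
affine points of the reduction of `E_D` modulo `P` is `N(P) - ψ(P) - ψ̄(P)`. -/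
def IsHeckeOf (D : OK) (ψ : Ideal OK → ℂ) : Prop :=
  ∀ P : HeightOneSpectrum OK, 2 * D ∉ P.asIdeal →
    ((Nat.card {x : (OK ⧸ P.asIdeal) × (OK ⧸ P.asIdeal) //
      (curve (Ideal.Quotient.mk P.asIdeal ⟨0, 1⟩)
        (Ideal.Quotient.mk P.asIdeal D)).toAffine.Equation x.1 x.2} : ℕ) : ℂ) =
      (Nat.card (OK ⧸ P.asIdeal) : ℂ) - (ψ P.asIdeal + (starRingEnd ℂ) (ψ P.asIdeal))

/-- The Euler product `L_j(s)` of the `(1 - ψ(P) ^ j ψ̄(P) ^ (1 - j) N(P) ^ (-s))⁻¹` converges for
`Re s > 3/2`, continues to an entire function and is not zero at `s = 1`. -/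
def CentralNonzero (ψ : Ideal OK → ℂ) (j : ℤ) : Prop :=
  ∃ L : ℂ → ℂ, Differentiable ℂ L ∧
    (∀ s : ℂ, 3 / 2 < s.re → HasProd (fun P : HeightOneSpectrum OK =>
      (1 - ψ P.asIdeal ^ j * (starRingEnd ℂ) (ψ P.asIdeal) ^ (1 - j) *
        (Nat.card (OK ⧸ P.asIdeal) : ℂ) ^ (-s))⁻¹) (L s)) ∧ L 1 ≠ 0

/-! ### The proof -/

section proof

open Pool.Agent.Y676.IS (Cu some_congr)
open Pool.Agent.R384 (WD ca cb em)

variable {w : QBar} (hw : w ^ 2 = w - 2) {D : OK}

lemma gen_sq : gen w ^ 2 = gen w - 2 ↔ w ^ 2 = w - 2 := by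
  rw [Subtype.ext_iff]
  rfl

lemma emb_eq (z : OK) : ((emb (gen w) z : K w) : QBar) = em hw z := by
  unfold emb
  rw [Pool.Agent.R384.em_apply]
  push_cast
  rfl

lemma curve_eq : (ED w D).toAffine.baseChange QBar = Cu (ca w (em hw D)) (cb w (em hw D)) := by
  have h1 : algebraMap (K w) QBar (gen w) = w := rfl
  have h2 : algebraMap (K w) QBar (emb (gen w) D) = em hw D := emb_eq hw D
  unfold ED curve Cu ca cb WeierstrassCurve.Affine.baseChange WeierstrassCurve.toAffine
  ext
  · exact map_zero _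
  · show algebraMap (K w) QBar (3 * (1 - gen w) * emb (gen w) D) = _
    rw [map_mul, map_mul, map_sub, map_one, map_ofNat, h1, h2]
  · exact map_zero _
  · show algebraMap (K w) QBar (gen w ^ 4 * emb (gen w) D ^ 2) = _
    rw [map_mul, map_pow, map_pow, h1, h2]
  · exact map_zero _

/-- the points of equal curves -/
noncomputable def tr {W W' : Affine QBar} (h : W = W') : W.Point ≃+ W'.Point := by
  subst h
  exact AddEquiv.refl _

lemma tr_some {W W' : Affine QBar} (h : W = W') {a b : QBar} (hab : W.Nonsingular a b) :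
    tr h (.some a b hab) = .some a b (h ▸ hab) := by
  subst h
  rfl

lemma tr_act (h : WD w (em hw D)) (fx : ∀ σ : Gal w, Pool.Agent.R384.Fx w (em hw D)
    (Pool.Agent.R384.rh σ)) (σ : Gal w) (P : Pts w D) :
    tr (curve_eq hw) (act σ P) = Pool.Agent.R384.act h fx σ (tr (curve_eq hw) P) := by
  rcases P with _ | ⟨a, b, hab⟩
  · show tr (curve_eq hw) (act σ 0) = Pool.Agent.R384.act h fx σ (tr (curve_eq hw) 0)
    simp only [map_zero]
  · rw [tr_some (curve_eq hw) hab]
    exact tr_some (curve_eq hw) (a := σ.toAlgHom a) (b := σ.toAlgHom b)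
      ((Affine.baseChange_nonsingular (ED w D).toAffine σ.toAlgHom.injective ..).mpr hab)

lemma elliptic (hD : D ≠ 0) (hw : w ^ 2 = w - 2) : (ED w D).IsElliptic := by
  have hg := gen_sq.2 hw
  have hg0 : gen w ≠ 0 := by
    intro h
    rw [h] at hg
    norm_num at hg
  have hg1 : 1 - gen w ≠ 0 := by
    intro h
    have h1 : gen w = 1 := (sub_eq_zero.1 h).symm
    rw [h1] at hg
    norm_num at hg
  have hd : (emb (gen w) D : K w) ≠ 0 := by
    intro h
    have h1 := emb_eq hw D
    rw [h] at h1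
    exact hD (Pool.Agent.R384.em_inj hw h1.symm)
  rw [WeierstrassCurve.isElliptic_iff, isUnit_iff_ne_zero]
  have e : (ED w D).Δ = 16 * (gen w ^ 4 * emb (gen w) D ^ 2) ^ 2 *
      ((1 - gen w) ^ 8 * emb (gen w) D ^ 2) := by
    simp only [ED, curve, WeierstrassCurve.Δ, WeierstrassCurve.b₂, WeierstrassCurve.b₄,
      WeierstrassCurve.b₆, WeierstrassCurve.b₈]
    generalize emb (gen w) D = d at *
    generalize gen w = g at *
    have h2 : (1 - g) ^ 2 = -1 - g := by linear_combination hg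
    have h4 : (1 - g) ^ 4 = 3 * g - 1 := by
      have : (1 - g) ^ 4 = ((1 - g) ^ 2) ^ 2 := by ring
      rw [this, h2]
      linear_combination hg
    have h8 : (1 - g) ^ 8 = 3 * g - 17 := by
      have : (1 - g) ^ 8 = ((1 - g) ^ 4) ^ 2 := by ring
      rw [this, h4]
      linear_combination 9 * hg
    have g4 : g ^ 4 = 2 - 3 * g := by linear_combination (g ^ 2 + g - 1) * hg
    rw [h8]
    have e1 : 9 * (1 - g) ^ 2 - 4 * g ^ 4 = 3 * g - 17 := by
      rw [h2, g4]; ring
    rw [← e1]
    ring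
  rw [e]
  exact mul_ne_zero (mul_ne_zero (by norm_num) (pow_ne_zero _ (mul_ne_zero (pow_ne_zero _ hg0)
    (pow_ne_zero _ hd)))) (mul_ne_zero (pow_ne_zero _ hg1) (pow_ne_zero _ hd))

end proof

lemma smb_eq (q x : OK) : symbol q x = Pool.Agent.N843.smb q x := by
  unfold symbol Pool.Agent.N843.smb
  rfl

lemma sgm_eq (v x : OK) : sign v x = Pool.Agent.N843.sgm v x := by
  unfold sign Pool.Agent.N843.sgm
  rfl

theorem result :
    (∀ (n : ℕ) (q : Fin n → OK) (D : OK), Good q D → ∀ w : QBar, w ^ 2 = w - 2 →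
      (ED w D).IsElliptic ∧
      (∃ κ κ' : Gal w →* ℤ_[2]ˣ, TateModule D κ κ' ∧
        ∀ j : ℤ, SelmerZero (if 1 ≤ j then 1 - w else w) (chi κ κ' j) ∧ chi κ κ' j ≠ 1) ∧
      ∀ z : ℂ, z ^ 2 = z - 2 → ∃ ψ : Ideal OK → ℂ, IsHecke q D z ψ ∧ IsHeckeOf D ψ ∧
        ∀ j : ℤ, CentralNonzero ψ j) ∧
    ∀ n : ℕ, 1 ≤ n → {D : OK | ∃ q : Fin n → OK, Good q D}.Infinite := by
  refine ⟨?_, ?_⟩
  · intro n q D hg w hw
    have hpr : ∀ i, Pool.Agent.R384.Pr (q i) := fun i => ⟨hg.prime i, hg.one i⟩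
    have hprod0 : ∏ i, q i ≠ 0 := Finset.prod_ne_zero_iff.2 fun i _ => (hg.prime i).ne_zero
    have hD : D ≠ 0 := by
      rcases hg.prod with h | h
      · rwa [h]
      · rw [h]
        exact neg_ne_zero.2 hprod0
    have hne := Pool.Agent.N843.n_pos hpr hg.inj hg.five
    refine ⟨elliptic hD hw, ?_, ?_⟩
    swap
    · intro z hz
      have hbasic := Pool.Agent.W287.HK.h_basic
      have hcls := Pool.Agent.W571.HK.h_cls hbasic
      have hfp := Pool.Agent.W53.HK.h_fp hbasic hcls
      have hfpr := Pool.Agent.W366.HK.h_fpr hbasic hcls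
      have hlat := Pool.Agent.W585.HK.h_lat hbasic
      have hker := Pool.Agent.W692.HK.h_ker hbasic hcls hfpr
      have hcnt := Pool.Agent.W584.HK.h_cnt hbasic hcls hfpr hlat hker
      have hdec := Pool.Agent.W856.HK.h_dec hbasic
      have hgauss := Pool.Agent.W636.HK.h_gauss hbasic hfp
      have hpois := Pool.Agent.W348.HK.h_pois hbasic
      have htheta := Pool.Agent.TH936.HK.h_theta hbasic hfp hdec hgauss hpois hcnt
      have hafe := Pool.Agent.TH936.HK.h_afe hbasic hfp hcnt hgauss htheta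
      have hb : (D = ∏ i, q i ∧ bad q D = 1 - Pool.Agent.R384.om) ∨
          (D = -∏ i, q i ∧ bad q D = Pool.Agent.R384.om) := by
        by_cases h : D = ∏ i, q i
        · left
          refine ⟨h, ?_⟩
          unfold bad
          rw [if_pos h]
          rfl
        · right
          refine ⟨hg.prod.resolve_left h, ?_⟩
          unfold bad
          rw [if_neg h]
          rfl
      have hv : bad q D = 1 - Pool.Agent.R384.om ∨ bad q D = Pool.Agent.R384.om :=
        hb.imp And.right And.right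
      obtain ⟨ψ, h1, h2⟩ := Pool.Agent.N843.exists_psi hpr hg.inj hg.five hg.indec hbasic hfp
        hcnt hdec hafe hz hv
      refine ⟨ψ, ⟨h1.mul, fun x => ?_⟩, ?_, h2⟩
      · rw [h1.val]
        simp only [smb_eq, sgm_eq]
        rfl
      · intro P hP
        exact Pool.Agent.N843.eul hpr hb hz h1 P hP
    have h : Pool.Agent.R384.WD w (Pool.Agent.R384.em hw D) := ⟨hw, Pool.Agent.R384.em_ne hw hD⟩
    obtain ⟨r, hr⟩ : ∃ r : QBar, r ^ 2 = Pool.Agent.R384.em hw D := IsAlgClosed.exists_pow_nat_eq _ (by norm_num)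
    obtain ⟨I, hI⟩ : ∃ I : QBar, I ^ 2 = -1 := IsAlgClosed.exists_pow_nat_eq _ (by norm_num)
    have fx : ∀ σ : Gal w, Pool.Agent.R384.Fx w (Pool.Agent.R384.em hw D) (Pool.Agent.R384.rh σ) := fun σ =>
      ⟨Pool.Agent.Y715.Gi.gk_fix σ, Pool.Agent.R384.gk_em hw σ D⟩
    obtain ⟨κ, κ', x, y, kd, hx, hy, ax, ay⟩ := Pool.Agent.R384.exists_kd hw hD h hr hI fx
    have td := Pool.Agent.R384.td h
    set T := tr (curve_eq hw (D := D)) with hT
    have hTs : ∀ (P : Pts w D) (n : ℕ), T (T.symm (x n)) = x n := fun _ n => T.apply_symm_apply _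
    have hor : ∀ {p : ℕ} [Fact p.Prime] (ι : QBar →ₐ[ℚ] PadicAlgCl p) (s : QBar) (z : OK),
        s ^ 2 = Pool.Agent.R384.em hw z → ∀ σ : Gal w, σ s = s ∨ σ s = -s := fun ι s z hs σ =>
      Pool.Agent.R384.rt_or hw hs σ
    have hIr : (I * r) ^ 2 = Pool.Agent.R384.em hw (-D) := by rw [mul_pow, hI, hr, map_neg]; ring
    refine ⟨κ, κ', ⟨kd.cont, kd.cont', ⟨fun n => T.symm (y n), fun n => T.symm (x n),
      ⟨?_, ?_, ?_, ?_⟩, fun σ => ⟨?_, ?_⟩⟩, ?_, ?_⟩, ?_⟩
    · show T.symm (y 0) = 0 ∧ T.symm (x 0) = 0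
      rw [hx.zero, hy.zero, map_zero]
      exact ⟨rfl, rfl⟩
    · intro n
      show T.symm (y (n + 1)) + T.symm (y (n + 1)) = T.symm (y n) ∧
        T.symm (x (n + 1)) + T.symm (x (n + 1)) = T.symm (x n)
      rw [← map_add, ← map_add, hx.dbl, hy.dbl]
      exact ⟨rfl, rfl⟩
    · intro n P hP
      have h1 : (2 ^ n : ℤ) • T P = 0 := by rw [← map_zsmul, hP, map_zero]
      obtain ⟨a, b, hab⟩ := Pool.Agent.R384.Tow.basis td hx hy h1
      refine ⟨b, a, ?_⟩
      apply T.injective
      show T P = T (b • T.symm (y n) + a • T.symm (x n))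
      rw [map_add, map_zsmul, map_zsmul, T.apply_symm_apply, T.apply_symm_apply, hab, add_comm]
    · intro n a b hab
      have h1 : T (a • T.symm (y n) + b • T.symm (x n)) = 0 := by
        show T ((fun n => a • T.symm (y n) + b • T.symm (x n)) n) = 0
        rw [show (fun n => a • T.symm (y n) + b • T.symm (x n)) n = 0 from hab, map_zero]
      rw [map_add, map_zsmul, map_zsmul, T.apply_symm_apply, T.apply_symm_apply, add_comm] at h1
      exact (Pool.Agent.R384.Tow.uniq td hx hy h1).symm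
    · intro n k hk
      show act σ (T.symm (y n)) = k • T.symm (y n)
      apply T.injective
      rw [hT, tr_act hw h fx σ, ← hT, T.apply_symm_apply, map_zsmul, T.apply_symm_apply]
      exact ay σ n k hk
    · intro n k hk
      show act σ (T.symm (x n)) = k • T.symm (x n)
      apply T.injective
      rw [hT, tr_act hw h fx σ, ← hT, T.apply_symm_apply, map_zsmul, T.apply_symm_apply]
      exact ax σ n k hk
    · rintro p _ ι hn σ ⟨τ, hτ, hin⟩
      have h1 := kd.inert p ι τ σ hτ hin hn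
      rcases hor ι _ _ hIr σ with h2 | h2
      · rw [h1.1 h2, one_pow]
      · rw [h1.2 h2, neg_one_sq]
    · rintro p _ ι hn σ ⟨τ, hτ, hin⟩
      have h1 := kd.inert' p ι τ σ hτ hin hn
      rcases hor ι _ _ hr σ with h2 | h2
      · rw [h1.1 h2, one_pow]
      · rw [h1.2 h2, neg_one_sq]
    · intro j
      refine ⟨fun c hc hs => ?_, Pool.Agent.N843.nontriv hw hpr hg.inj hg.prod kd hne.choose j⟩
      have hc' : Pool.Agent.R384.Coc (κ ^ j * κ' ^ (1 - j)) c := ⟨hc.cont, hc.mul⟩
      have hom : Pool.Agent.R384.em hw Pool.Agent.R384.om = w := by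
        rw [Pool.Agent.R384.em_apply]
        simp [Pool.Agent.R384.om]
      have hom' : Pool.Agent.R384.em hw (1 - Pool.Agent.R384.om) = 1 - w := by
        rw [map_sub, map_one, hom]
      by_cases hj : 1 ≤ j
      · rw [if_pos hj] at hs
        obtain ⟨y, hy⟩ := Pool.Agent.R384.vanish hw hpr hg.inj hg.five hg.indec hg.prod kd j
          (Or.inr ⟨rfl, rfl⟩) hc' (fun p _ ι hp => hs.odd p ι hp) (fun ι hι => hs.two ι (by
            rwa [hom'] at hι))
        exact ⟨y, fun σ _ => hy σ⟩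
      · rw [if_neg hj] at hs
        obtain ⟨y, hy⟩ := Pool.Agent.R384.vanish hw hpr hg.inj hg.five hg.indec hg.prod kd j
          (Or.inl ⟨rfl, rfl⟩) hc' (fun p _ ι hp => hs.odd p ι hp) (fun ι hι => hs.two ι (by
            rwa [hom] at hι))
        exact ⟨y, fun σ _ => hy σ⟩
  · intro n hn
    obtain ⟨k, rfl⟩ : ∃ k, n = k + 1 := ⟨n - 1, by omega⟩
    refine (Pool.Agent.R384.inf k).mono ?_
    rintro D ⟨q, hq, hD⟩
    exact ⟨q, fun i => (hq.pr i).prime, fun i => (hq.pr i).one, hq.inj, Or.inl hD, hq.five, hq.ind⟩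

end Pool.Agent.Results.MP_ec4e4b_nt.AllWeightsSqrtMinusSeven
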